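import Pool.Agent.TH117.BL.Const

/-!
# The formula of Beilinson and Bloch for constant abelian varieties over function fields: elementary
relations between the Frobenius eigenvalues

Over an algebraic closure of the field with `p` elements each abelian variety is isogenous to the
reduction of an abelian variety of CM type (Honda, Tate). So an abelian variety over the field with
`p ^ a` elements is modelled by a finite product of CM types `(E i, Φ i)` with Weil numbers `π i ∈ E i`
that satisfy the formula of Shimura and Taniyama (`RedAV`).

We consider abelian varieties `Z` of any dimension and with any Newton polygons, such that the group of
multiplicative relations between the Frobenius eigenvalues of `Z`, the square root of the number of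
elements of the ground field and roots of unity is generated by relations of the following kinds
(`HasElementaryRelations`):

* relations that involve at most two eigenvalues;
* Weil relations of imaginary quadratic fields on products of factors of `Z` of dimension three, four
  or five, or of dimension six if `p` splits in the quadratic field;
* relations between the Frobenius eigenvalues of a product of factors of `Z` of dimension at most five
  no two of which form an exceptional pair (`IsExceptionalPair`);
* relations between the Frobenius eigenvalues of a product of factors of `Z` of dimension at most
  three, such that any two of these factors whose CM fields have the same Galois closure over `ℚ` are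
  isogenous, unless these CM fields are Galois over `ℚ` or one of the two factors is supersingular.

Let `C` be a smooth projective geometrically connected curve over the field with `q = p ^ a` elements,
with the Jacobian variety `J` and the function field `k`; let `P` be the set of closed points of `C`,
that is, of places of `k`, and `deg` the degree. The number of points of `C` over the extension of
degree `m` is the sum of the degrees of the closed points of degree dividing `m`, and it is equal to
`1 + q ^ m - trace (Fr ^ m)`, where `Fr` is the Frobenius endomorphism of the first cohomology group.
Let `A` be an abelian variety over the field with `q` elements and `X = A_k`. Suppose that `A` and `J`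
are isogenous, over an algebraic closure, to products of powers of the factors of `Z` and of
supersingular abelian varieties (`IsPowersTimesSupersingular`).

Since `X` has good reduction everywhere, `L (H ^ (2 k + 1) (X), s)` is the product over `v` in `P` of
`det (1 - (q ^ (- s)) ^ deg v • Fr ^ deg v)⁻¹`, where `Fr` is the Frobenius endomorphism of
`H ^ (2 k + 1) (A)`. The theorem says, for all `k ≥ 0` (the codimension is `i = k + 1`): this product
converges for `Re s > i + 1 / 2`, has a meromorphic continuation to the complex plane, and the order
of the continuation at `s = i` is the dimension of `algebraicClasses`: the space of the classes in
`H ^ (2 i - 1) (A) ⊗ H ^ 1 (C)` on which the Frobenius acts as multiplication by `q ^ i` and whose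
images in `H ^ (2 i) (A × J)` belong to the smallest system of cohomology classes `Alg` of abelian
varieties over finite fields that contains the classes of degree zero, the Tate classes of degree two
and the reductions of the split Weil classes of imaginary quadratic fields on abelian fourfolds and
sixfolds of CM type, and that is stable under linear combinations, cup products, pull-backs along
homomorphisms and push-forwards along projections.

The classes in `Alg` are linear combinations of classes of algebraic cycles by theorems of Tate and
Markman, so that all of `algebraicClasses` comes from cycles of codimension `i` on `A × J` and hence
on `A × C`, and these give homologically trivial cycles on `X`. By the theorem of Kahn (based on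
Kimura, O'Sullivan, Soulé, Geisser) a motive of abelian type over a finite field all of whose Tate
classes are algebraic has no other cycles modulo rational equivalence; so the dimension is that of
`CH ^ i (X)_0`, and the formula of Beilinson and Bloch holds for `X` and all `i`.

For instance the formula holds for all powers of `A` if `A × J` has dimension at most five and no
exceptional pairs of factors, and then also with `C` replaced by any curve whose Jacobian variety is
isogenous to a product of powers of the factors of `A × J`.
-/

namespace Pool.Agent.Results.MP_0b9e0b_ag.ConstantElementaryRelations

open Module Pool.Agent.W495.TA Pool.Agent.TH117.BL

/-- The `L`-function of `H^{2k+1}` of the constant abelian variety `A` over the function field of a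
curve with the set of closed points `P` and the Jacobian variety `J` has at `k + 1` a zero of order
`dim (algebraicClasses A J k)`. -/
theorem result (p : ℕ) [Fact p.Prime] (ν : PadicAlgCl p ≃+* ℂ) (Z A J : RedAV p ν)
    (hZ : HasElementaryRelations Z) (hA : IsPowersTimesSupersingular Z A)
    (hJ : IsPowersTimesSupersingular Z J) (ha : J.a = A.a) {P : Type} (deg : P → ℕ)
    (hP : IsCurve J (p ^ A.a) deg) (k : ℕ) :
    ∃ Λ : ℂ → ℂ, IsLFunction A k deg Λ ∧ meromorphicOrderAt Λ ((k : ℂ) + 1) =
      ((finrank ℂ (algebraicClasses A J k) : ℤ) : WithTop ℤ) :=
  constBB hZ hA hJ ha deg hP k

end Pool.Agent.Results.MP_0b9e0b_ag.ConstantElementaryRelations
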