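import Pool.Agent.TH776.FB.Main

/-!
# The formula of Beilinson and Bloch for constant abelian varieties over function fields of curves:
# abelian varieties with few exceptional slopes

The definitions used in the statement are in `Pool/Agent/TH776/FB/Defs.lean`,
`Pool/Agent/TH776/FC/Defs.lean`, `Pool/Agent/TH776/FM/Defs.lean`, `Pool/Agent/TH776/FS/Defs.lean` and
`Pool/Agent/W527/TateDefs.lean` (a file of the starting repository: `WeilNumber`, `FrobSpace`,
`IsOfType`, `productOf`, `Coh`, `IsTate`, `TRing`).

Let `A i` be simple abelian varieties over the field with `p ^ (m s)` elements, `π i` their Weil
numbers, `K i = ℚ(π i)` CM fields of any degrees. For an embedding `τ` of `K i` in an algebraic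
closure of `ℚ_p` let `dev τ` be the deviation of the slope from the middle slope. We suppose that
every `π i` has few exceptional slopes (`FewCombined`): some integral valued combination of conjugate
functions `dev` has its values prime to some prime number `r` at one pair of conjugate embeddings
only, or linked pairs of such embeddings separate the maximal real subfield, or there is a similar
condition for the even values; for instance the slopes are `0`, `1/2`, `1`, the middle slope at one
or two pairs of embeddings; or `A i` is ordinary and two conjugates of its CM type differ at one
pair. We also suppose that for each `i` some automorphism of the complex numbers conjugates the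
embeddings of `K i` and fixes those of the other `K i'` (no condition for one field).

Let `Γ` be a smooth projective geometrically connected curve over the field `k` with `q = p ^ m`
elements, with Jacobian variety `C`, and let `X` be an abelian variety over `k`; suppose that `X` and
`C` are isogenous, over the extension of degree `s` of `k`, to products of copies of the `A i`
(`IsProductOver`; the dimensions and the multiplicities are arbitrary). Let `K` be the function field
of `Γ`. The constant abelian variety `X_K` has good reduction everywhere, and the `L`-function of
`H^(2k+1)(X_K)` is the product over the closed points `v` of `Γ` of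
`det (1 - (q ^ (- s)) ^ deg v Fr ^ deg v)⁻¹`, `Fr` the Frobenius endomorphism of `H^(2k+1)(X)`.

Theorem. For all `k ≥ 0` (the codimension is `i = k + 1`): this product converges for
`Re s > i + 1 / 2`, has a meromorphic continuation to the complex plane, and its order at `s = i` is
the dimension of the space of those classes in `H^(2 i - 1)(X) ⊗ H^1(Γ)` on which the Frobenius acts
as multiplication by `q ^ i` and whose images in `H^(2 i)(X × C)` are generated, over the extension
of degree `s`, by the Tate classes of degree two and pull-backs of Tate classes from products of at
most two of the `A i` (one, if four divides all `[K i : ℚ]`) that have the property `HasWeil`: the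
norm of `π i` to some imaginary quadratic subfield is supersingular.

If no `A i` has the property `HasWeil`, these classes are linear combinations of products of
divisor classes, so they come from cycles of codimension `i` on `X × Γ` (Tate); these give
homologically trivial cycles on `X_K`. In this case all Tate classes on all products of the `A i` are
algebraic, and by the theorem of Kahn (based on Kimura, O'Sullivan, Soulé, Geisser) there are no
other cycles modulo rational equivalence: the dimension is that of `CH^i(X_K)_0`, and the formula of
Beilinson and Bloch holds for `X_K` in all codimensions.
-/

namespace Pool.Agent.Results.MP_0b9e0b_ag.ConstantFewSlopes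

open NumberField Module Pool.Agent.W527.TateRing Pool.Agent.TH776.FS Pool.Agent.TH776.FM
  Pool.Agent.TH776.FC Pool.Agent.TH776.FB

/-- The `L`-function of `H^{2k+1}` of the constant abelian variety `X` over the function field of a
curve with the set of closed points `P` and the Jacobian variety `C` has at `k + 1` a zero whose
order is `generatedRank`, the dimension of the space of the classes in `H^{2k+1}(X) ⊗ H^1(C)` on which
the Frobenius acts as `q ^ (k + 1)` and whose images are generated by classes of degree two and
classes on products of at most two of the `A i` with the property `HasWeil`. -/
theorem result {p m s : ℕ} [Fact p.Prime] (hm : 0 < m) (hs : 0 < s) {ι : Type} [Fintype ι]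
    (W : ι → WeilNumber p (m * s)) (hW : ∀ i, FewCombined (W i)) (hind : Independent W)
    (A : ι → FrobSpace ℂ) (hA : ∀ i, IsOfType (A i) (W i)) (n : ℕ)
    (hn : 2 ≤ n ∨ (1 ≤ n ∧ ∀ i, 4 ∣ finrank ℚ (W i).K)) (X C : FrobSpace ℂ)
    (hX : IsProductOver A s X) (hC : IsProductOver A s C) {P : Type} (deg : P → ℕ)
    (hP : IsCurve C (p ^ m) deg) (k : ℕ) :
    ∃ Λ : ℂ → ℂ, IsLFunction X (p ^ m) k deg Λ ∧ meromorphicOrderAt Λ ((k : ℂ) + 1) =
      ((generatedRank (p ^ m) s n A (fun i => HasWeil (W i)) X C k : ℤ) : WithTop ℤ) :=
  constBB hm hs hW hind hA hn hX hC deg hP k

end Pool.Agent.Results.MP_0b9e0b_ag.ConstantFewSlopes
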