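import Pool.Agent.TH943.LP.Pen

/-!
The orders of vanishing at `s = 1` of the L-functions of the quadratic twists by primes of the
hyperelliptic curves `y ^ 2 = (x - t) f(x)` over `k(t)`, for all squarefree polynomials `f`.
-/

set_option autoImplicit false
set_option maxHeartbeats 1000000

open Polynomial

namespace Pool.Agent.Results.MP_0b9e0b_ag.PencilPrimeTwists

/-- The closed points of the affine line over the field `F`: monic irreducible polynomials. -/
abbrev ClosedPt (F : Type) [Field F] : Type := {P : F[X] // P.Monic ∧ Irreducible P}

section generic

variable {F : Type} [Field F]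

open Classical in
/-- The quadratic character of the field `F[x] / (Q)` at the class of `h`. -/
noncomputable def quadChar (h Q : F[X]) : ℤ :=
  if Q ∣ h then 0 else if ∃ s : F[X], Q ∣ h - s ^ 2 then 1 else -1

/-- The degree of the closed point `Q` of the line over a field `F` of degree `d`. -/
noncomputable def ptDegree (d : ℕ) (Q : ClosedPt F) : ℕ := d * Q.1.natDegree

/-- The Euler factor `1 - χ T ^ n`, where `χ` is the value of the quadratic character of the residue
field of `Q` at `h`, and `n` is the degree of `Q`. -/
noncomputable def ptFactor (h : F[X]) (d : ℕ) (Q : ClosedPt F) : PowerSeries ℤ :=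
  1 - PowerSeries.C (quadChar h Q.1) * PowerSeries.X ^ ptDegree d Q

end generic

/-- The Euler product: its coefficient of index `n` is that of the product of the factors of degree
at most `n`. -/
noncomputable def eulerProduct {ι : Type} (d : ι → ℕ) (f : ι → PowerSeries ℤ) : PowerSeries ℤ :=
  PowerSeries.mk fun n => PowerSeries.coeff n (∏ᶠ (i : ι) (_ : d i ≤ n), f i)

/-- The product of the factors `1 - χ T ^ n` over the closed points of the affine line over `F`, `χ`
the value of the quadratic character at `h`. -/
noncomputable def lineProduct {F : Type} [Field F] (h : F[X]) : PowerSeries ℤ :=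
  eulerProduct (fun Q : ClosedPt F => ptDegree 1 Q) (fun Q => ptFactor h 1 Q)

section defs

variable {k : Type} [Field k]

/-- The residue field of the closed point `P` of the `t`-line. -/
def Res (P : ClosedPt k) : Type := AdjoinRoot P.1

noncomputable instance resField (P : ClosedPt k) : Field (Res P) :=
  @AdjoinRoot.instField k _ P.1 ⟨P.2.2⟩

/-- The value at `P` of a polynomial in `t`. -/
noncomputable def value (P : ClosedPt k) (g : k[X]) : Res P := AdjoinRoot.mk P.1 g

/-- The inclusion of the constants in the residue field. -/
noncomputable def constants (P : ClosedPt k) : k →+* Res P := AdjoinRoot.of P.1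

/-- The polynomial `D(t) (x - t) f(x)` in `x` over the residue field of the closed point `P`. -/
noncomputable def fibre (f D : k[X]) (P : ClosedPt k) : (Res P)[X] :=
  C (value P D) * ((X - C (value P X)) * f.map (constants P))

/-- The closed points of the `(t, x)`-plane with `D(t) ≠ 0`: a closed point of the `t`-line and a
closed point of the `x`-line over its residue field. -/
structure PlanePt (D : k[X]) : Type where
  place : ClosedPt k
  ndvd : ¬ place.1 ∣ D
  point : ClosedPt (Res place)

/-- The degree of a closed point of the plane. -/
noncomputable def PlanePt.deg {D : k[X]} (z : PlanePt D) : ℕ :=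
  ptDegree z.place.1.natDegree z.point

/-- The Euler factor of a closed point of the plane. -/
noncomputable def PlanePt.factor {D : k[X]} (f : k[X]) (z : PlanePt D) : PowerSeries ℤ :=
  ptFactor (fibre f D z.place) z.place.1.natDegree z.point

open Classical in
/-- The factors of the points `x = ∞` of the fibres: if the degree of `f` is odd then the factor of the
fibre at `P` is `1 - χ(P) T ^ deg P` with the quadratic character `χ(P)` of the residue field of `P` at
`D`; if the degree is even then these are points of ramification and the factors are one. -/
noncomputable def fibreInfFactor (f D : k[X]) : PowerSeries ℤ :=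
  if Odd f.natDegree then lineProduct D else 1

open Classical in
/-- The Euler factor at `t = ∞`: if the degree of `D` is odd then it is the product over the closed
points of the affine line for the reduction `y ^ 2 = - c f(x)`, `c` the leading coefficient of `D`;
otherwise the factor is one. -/
noncomputable def infFactor (f D : k[X]) : PowerSeries ℤ :=
  if Odd D.natDegree then lineProduct (C (-D.leadingCoeff) * f) else 1

/-- The `L`-function in the variable `T = q ^ (-s)` of `H ^ 1` of the hyperelliptic curve
`D(t) y ^ 2 = (x - t) f(x)` over `k(t)`, `f` monic: the product of `1 - χ(z) T ^ deg z` over the closed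
points `z` of the plane with `D(t) ≠ 0`, where `χ(z)` is the quadratic character of the residue field
of `z` at `D(t) (x - t) f(x)`, times the factors of the points `x = ∞` of the fibres, times the factor
at `t = ∞`. -/
noncomputable def Lfun (f D : k[X]) : PowerSeries ℤ :=
  eulerProduct (fun z : PlanePt D => z.deg) (fun z => z.factor f) * fibreInfFactor f D *
    infFactor f D

/-- `L(T) = (1 - q T) ^ m G(T)` with an integral polynomial `G`: the function vanishes to order at
least `m` at `s = 1`. -/
def VanishesTo (f D : k[X]) (m : ℕ) : Prop :=
  ∃ G : ℤ[X], Lfun f D = (((1 - C (Nat.card k : ℤ) * X) ^ m * G : ℤ[X]) : PowerSeries ℤ)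

/-- The polynomial `f` is monic and squarefree of degree at least two. -/
structure IsBase (f : k[X]) : Prop where
  monic : f.Monic
  squarefree : Squarefree f
  degree : 2 ≤ f.natDegree

/-- The polynomial `P` is monic and irreducible, its degree is odd, and prime to the degrees of the
irreducible factors of `f`. -/
structure IsAdmissible (f P : k[X]) : Prop where
  monic : P.Monic
  irreducible : Irreducible P
  odd : Odd P.natDegree
  coprime : ∀ R : k[X], Irreducible R → R ∣ f → Nat.Coprime P.natDegree R.natDegree

/-- the equivalence of the two descriptions of the points of the plane -/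
noncomputable def planeEquiv (D : k[X]) :
    (Σ P : {P : Pool.Agent.W313.Hyp.MI k // ¬ P.1 ∣ D},
      Pool.Agent.W313.Hyp.MI (Pool.Agent.TH943.HJ.RF P.1)) ≃ PlanePt D where
  toFun z := ⟨z.1.1, z.1.2, z.2⟩
  invFun z := ⟨⟨z.place, z.ndvd⟩, z.point⟩
  left_inv _ := rfl
  right_inv _ := rfl

theorem Lfun_eq (f D : k[X]) :
    Lfun f D = Pool.Agent.TH943.LP.LL f X D := by
  unfold Lfun Pool.Agent.TH943.LP.LL
  congr 1
  · congr 1
    unfold Pool.Agent.TH943.LP.LF eulerProduct Pool.Agent.W343.BSD.eulerProd
    ext n
    rw [PowerSeries.coeff_mk, PowerSeries.coeff_mk]
    congr 1
    exact (finprod_comp_equiv (planeEquiv D)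
      (f := fun z : PlanePt D => ∏ᶠ (_ : z.deg ≤ n), z.factor f)).symm
  · unfold infFactor Pool.Agent.TH943.LP.infT
    have h1 : Even ((X : k[X]).natDegree + D.natDegree) ↔ Odd D.natDegree := by
      rw [natDegree_X, add_comm, Nat.even_add_one, Nat.not_even_iff_odd]
    rw [leadingCoeff_X, one_mul]
    by_cases h : Odd D.natDegree
    · rw [if_pos h, if_pos (h1.2 h)]
      rfl
    · rw [if_neg h, if_neg (fun h' => h (h1.1 h'))]

end defs

/-- **Non-vanishing at `s = 1` for one of the two twists by every prime, in the universal hyperelliptic
families with big monodromy.**

Let `k` be a finite field with `q` elements of odd characteristic and `f` any monic squarefree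
polynomial over `k` of degree `n ≥ 2`. For a squarefree polynomial `D` over `k` let `X_D` be the smooth
projective curve over `K = k(t)`, of genus `g`, the integral part of `n / 2`, with the equation
`D(t) y ^ 2 = (x - t) f(x)`, and `J_D` its Jacobian. The geometric monodromy group of the family is
known to be Zariski dense in `Sp(2 g)`. At the places dividing `D` there are no inertia invariants; at
the zeros of `f(t)`, if they are not zeros of `D`, the fibre is semistable with one node; the other
finite places are places of good reduction. At infinity `D(t) (x - t)` is `- c t ^ (deg D + 1)` times a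
square, `c` the leading coefficient of `D`; so the reduction is `y ^ 2 = - c f(x)` for odd degree of
`D`, smooth if `n` is odd and with the two points at infinity identified to a node if `n` is even, and
it is a ramified twist of this, without inertia invariants, for even degree of `D`. Hence `Lfun f D` is
the L-function of `H ^ 1` of `X_D`, a polynomial in `T = q ^ (-s)`.

Let `P` be a prime of `k[t]`, that is a monic irreducible polynomial, whose degree is odd and prime to
the degrees of the irreducible factors of `f`; if `f` is a product of linear factors then `P` is any
prime of odd degree. Let `ε` in `k` not be a square. Then the sum of the orders of vanishing of the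
L-functions of `X_P` and of `X_{ε P}` at `s = 1` is at most one.

So for each such `f` and `P` one of the two functions does not vanish at `s = 1`. For this twist, by
Tate's inequality, the rank of `CH ^ 1 (X)_0 = J(K) ⊗ ℚ` and the order are both zero, and the
Tate-Shafarevich group of `J` is finite. -/
theorem result (k : Type) [Field k] [Finite k] (h2 : (2 : k) ≠ 0) (f : k[X]) (hf : IsBase f)
    (P : k[X]) (hP : IsAdmissible f P) (ε : k) (hε : ¬ IsSquare ε) (m m' : ℕ)
    (hm : VanishesTo f P m) (hm' : VanishesTo f (C ε * P) m') : m + m' ≤ 1 := by
  obtain ⟨G, hG⟩ := hm
  obtain ⟨G', hG'⟩ := hm'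
  rw [Lfun_eq] at hG hG'
  obtain ⟨G0, hG0⟩ := Pool.Agent.TH943.LP.combine h2 hε f X P m m' G G' hG hG'
  have h1 : (C (1 : k) * P) = P := by rw [C_1, one_mul]
  rw [← h1] at hG0
  exact Pool.Agent.TH943.LP.bound_prime h2 hf.squarefree.ne_zero hP.monic hP.irreducible hP.odd hP.coprime
    one_ne_zero m m' G0 hG0

end Pool.Agent.Results.MP_0b9e0b_ag.PencilPrimeTwists
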