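import Mathlib
import Pool.Agent.TH128.BBP.Main

/-!
# The formula of Beilinson and Bloch for products of almost all constant abelian varieties with
arbitrary varieties over function fields

Let `g i` (`i` in a finite set `I`) be positive integers, `r` an integer smaller than all the `g i`
and `E` a number field.  For a prime power `q` let `S i` be the set of the characteristic
polynomials of Frobenius of the ordinary abelian varieties of dimension `g i` over the field with
`q` elements, or of all abelian varieties of dimension `g i`, or any set in between.  By Weil, Honda
and Tate its elements correspond to the isogeny classes, the first set contains `ordinaryWeilPolys q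
(g i)`, and the second one is contained in `weilPolys q (g i)`.

For all families `f i` in `S i` with the exception of a proportion `O (q ^ (-1 / 6) log q)`, the
constant depending only on `g` and `E`, the following holds for all `s > 0`, `Q = q ^ s`,
all abelian varieties `A` over the field `k` with `Q` elements which are isogenous to products of
powers of abelian varieties coming from the field with `q` elements, with characteristic
polynomials `f i`, and **all** smooth projective varieties `Z` over a global function field `F` with
constant field `k`, which are generic fibres of smooth projective varieties `𝒵` over `k`, such that

* the eigenvalues of Frobenius on the cohomology of `𝒵`, and the inverses of the zeros and poles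
  of the `L`-functions of `Z`, generate together with their conjugates a group of rank at most `r`
  modulo the group of the numbers with a power in `E`;
* homologically trivial self-correspondences of degree zero of `A × 𝒵` are nilpotent, for instance
  the motive of `𝒵` is finite-dimensional in the sense of Kimura and O'Sullivan. This is known for
  all varieties dominated by products of curves.

The formula of Beilinson and Bloch

`dim CH^i(Y)_0 = ord_(s = i) L(h^(2 i - 1)(Y), s)`

holds for `Y = A × Z` and all `1 ≤ i ≤ n` if and only if it holds for `Y = Z` and all `1 ≤ i ≤ n`,
for each `n`. If for instance `Z` is a curve, the formula for `A × Z` in **all** codimensions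
is equivalent to the conjecture of Birch and Swinnerton-Dyer for the Jacobian of `Z`; it is
therefore true if the surface `𝒵` is dominated by a product of curves, such as for the elliptic
curves of large rank of Shioda and Ulmer. These varieties `A × Z` are in general neither constant
nor isotrivial, and the two sides of the formula are not zero: the dimension of `CH^i(A × Z)_0` is
the rank of the Jacobian times the number of the products of divisors `D j` on `A` of
codimension `i - 1` below.

For `r = 0` the assumption on the eigenvalues is: the eigenvalues and their conjugates have powers in
`E`.  If for instance `Z` is any given variety over a given function field with field of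
constants `k'`, one can take for `E` the field generated by the eigenvalues of Frobenius and their
conjugates, and applies the theorem to the powers `q` of the number of elements of `k'`, and
the base change of `Z`.

The idea of the proof: by a sieve (helper521), which only uses the primes that split completely in
the Galois closure of `E` - these have positive density by the theorem of Chebotarev, formalized by
helper401 - almost all families are such that each pair `α`, `q / α` of roots can be exchanged by a
Galois automorphism which fixes all the other roots of all the `f i` and also all elements of `E`.
It follows that the generalized eigenvectors of Frobenius in the cohomology of `A × 𝒵` for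
the eigenvalues `Q ^ i` are sums of products of classes of products of divisors `D j` on `A` and of
classes on `𝒵`, and by nilpotence of homologically trivial correspondences the Chow groups of
`A × 𝒵` are the sum of the products of the `D j` with the Chow groups of `𝒵` (as in the
starting modules imported here). As each cycle on `A × Z` extends to `A × 𝒵`, the group
`CH^i(A × Z)_0` is the direct sum of the groups `D j × CH^(i - deg D j)(Z)_0`, also if the
extension is not homologically trivial. On the other side, `L(h^n(A × Z), T)` is the product of the
functions `L(h^b(Z), α T)` with `α` in the eigenvalues of Frobenius on the cohomology of
degree `n - b` of `A`. Again by the independence of the eigenvalues such a function has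
neither a zero nor a pole at `T = Q ^ (- i)` unless `α = Q ^ d` is the eigenvalue of the class of a
product `D j` of `d` divisors. So the formula for `A × Z` in codimension `i` is the sum of the
formulas for `Z` in codimensions `i - deg D j`, and the claim follows by induction.

`BBForRankOver` is stated in the axiomatic framework (`TheoryData`, `IsChow`, `IsWeil`) of
helper492 for the Chow groups `C` of smooth projective varieties over `k` and a Weil
cohomology theory `H`; the Chow groups of `Z` and `A × Z` are given by `FibreData` with the
properties `IsGenericFibre`, the Frobenius elements at the places of `F` by `LocalData`, with the
properties `HasLFunctions`. The `L`-functions are honest Euler products, as formal power series.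
-/

set_option autoImplicit false

namespace Pool.Agent.Results.MP_0b9e0b_ag.ProductsWithAnyVariety

open Polynomial Pool.Agent.W521.Descent Pool.Agent.W521.Count Pool.Agent.W484.TB
  Pool.Agent.W484.CK Pool.Agent.TH128.BBP

/-- `weilPolys q g` is the set of monic integral polynomials of degree `2 g` with constant term
`q ^ g` and all roots of absolute value `√q`; `ordinaryWeilPolys q g` is the subset of those
whose coefficient of index `g` is prime to `q`. -/
theorem result {I : Type} [Fintype I] (g : I → ℕ) (r : ℕ) (hr : ∀ i, r < g i)
    (E : IntermediateField ℚ ℂ) [FiniteDimensional ℚ E] :
    ∃ C : ℝ, ∀ q : ℕ, IsPrimePow q → ∀ S : I → Set ℤ[X],
      (∀ i, ordinaryWeilPolys q (g i) ⊆ S i ∧ S i ⊆ weilPolys q (g i)) →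
      (∀ i, (S i).Finite ∧ (S i).Nonempty) ∧
      ({f : I → ℤ[X] | (∀ i, f i ∈ S i) ∧ ¬ BBForRankOver E q r f}.ncard : ℝ) ≤
        C * (Real.log q * (q : ℝ) ^ (-(1 / 6) : ℝ)) * ∏ i, ((S i).ncard : ℝ) :=
  count_of_goodU (splitPrimes E) (dense_splitPrimes E) g
    (fun i => (Nat.zero_le r).trans_lt (hr i)) (fun q f => BBForRankOver E q r f)
    fun _ hq x hx => bbForRankOver_of_good g E hq.one_lt r hr x hx

end Pool.Agent.Results.MP_0b9e0b_ag.ProductsWithAnyVariety
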